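import Pool.Agent.Lib.MP_cd78fc_co.VC.Graph

set_option autoImplicit false

/-!
# Books in graphs of small VC dimension
-/

namespace Pool.Agent.Lib.MP_cd78fc_co.VC

open Finset

lemma card_symmDiff' {α : Type*} [DecidableEq α] (S T : Finset α) :
    (symmDiff S T).card = (S \ T).card + (T \ S).card := by
  rw [symmDiff_def, Finset.sup_eq_union, card_union_of_disjoint]
  rw [Finset.disjoint_left]
  intro a ha hb
  exact (mem_sdiff.1 hb).2 (mem_sdiff.1 ha).1

/-- Many vertices with neighbourhoods far apart. -/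
theorem many_far (n b : ℕ) (c : ℝ) (hc : 0 < c) (hb : 1 ≤ b) (G : SimpleGraph (Fin n))
    [DecidableRel G.Adj] (hE : c * (n : ℝ) ^ 2 ≤ (G.edgeFinset.card : ℝ))
    (htri : ∀ u v : Fin n, G.Adj u v → ∃ w : Fin n, G.Adj u w ∧ G.Adj v w)
    (hbook : ∀ u v : Fin n, G.Adj u v →
      (univ.filter (fun w : Fin n => G.Adj u w ∧ G.Adj v w)).card ≤ b) :
    ∃ P : Finset (Fin n), c * (n : ℝ) / (3 * b) ≤ (P.card : ℝ) ∧
      ∀ u ∈ P, ∀ v ∈ P, u ≠ v → c * (n : ℝ) / (6 * b) <
        ((symmDiff (univ.filter (fun w => G.Adj u w)) (univ.filter (fun w => G.Adj v w))).card : ℝ) := by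
  have hb' : (1 : ℝ) ≤ b := by exact_mod_cast hb
  obtain ⟨P, hP1, hP2⟩ := far_apart G hb (κ := c * (n : ℝ) / (6 * b)) (by positivity) htri hbook
  refine ⟨P, ?_, ?_⟩
  · rcases Nat.eq_zero_or_pos n with rfl | hn
    · simp
    have hn' : (0 : ℝ) < n := by exact_mod_cast hn
    rw [Fintype.card_fin] at hP2
    have h1 : ∑ x : Fin n, ((nb G x).card : ℝ) = 2 * (G.edgeFinset.card : ℝ) := by
      have h2 := G.sum_degrees_eq_twice_card_edges
      have h3 : ∀ x : Fin n, (nb G x).card = G.degree x := by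
        intro x
        rw [← G.card_neighborFinset_eq_degree]
        congr 1
        ext w
        rw [mem_nb, SimpleGraph.mem_neighborFinset]
      have h4 : ∑ x : Fin n, (nb G x).card = 2 * G.edgeFinset.card := by
        rw [← h2]
        exact Finset.sum_congr rfl fun x _ => h3 x
      exact_mod_cast h4
    rw [h1] at hP2
    have h5 : 6 * (b : ℝ) * (c * (n : ℝ) / (6 * b)) * n = c * (n : ℝ) ^ 2 := by
      field_simp
    rw [h5] at hP2
    have h6 : c * (n : ℝ) ^ 2 ≤ 3 * b * n * P.card := by linarith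
    rw [div_le_iff₀ (by positivity)]
    have h7 : (c * (n : ℝ)) * n ≤ ((P.card : ℝ) * (3 * b)) * n := by nlinarith
    exact le_of_mul_le_mul_right h7 hn'
  · intro u hu v hv huv
    have := hP1 u hu v hv huv
    rw [card_symmDiff']
    exact this

/-- The bound for the VC dimension. -/
theorem vc_bound (n b d : ℕ) (c : ℝ) (hc : 0 < c) (hb : 1 ≤ b) (hn : 1 ≤ n)
    (G : SimpleGraph (Fin n)) [DecidableRel G.Adj]
    (hE : c * (n : ℝ) ^ 2 ≤ (G.edgeFinset.card : ℝ))
    (htri : ∀ u v : Fin n, G.Adj u v → ∃ w : Fin n, G.Adj u w ∧ G.Adj v w)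
    (hbook : ∀ u v : Fin n, G.Adj u v →
      (univ.filter (fun w : Fin n => G.Adj u w ∧ G.Adj v w)).card ≤ b)
    (hd : (univ.image (fun v : Fin n => univ.filter (fun w => G.Adj v w))).vcDim ≤ d) :
    (n : ℝ) ≤ (132 * b / c) ^ (d + 1) := by
  have hb' : (1 : ℝ) ≤ b := by exact_mod_cast hb
  have hn' : (1 : ℝ) ≤ n := by exact_mod_cast hn
  obtain ⟨P, hP1, hP2⟩ := many_far n b c hc hb G hE htri hbook
  have hc1 : c ≤ 1 := by
    have h1 : G.edgeFinset.card ≤ (Fintype.card (Fin n)).choose 2 := G.card_edgeFinset_le_card_choose_two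
    rw [Fintype.card_fin] at h1
    have h2 : n.choose 2 ≤ n ^ 2 := Nat.choose_le_pow n 2
    have h3 : (G.edgeFinset.card : ℝ) ≤ (n : ℝ) ^ 2 := by exact_mod_cast h1.trans h2
    have h4 : c * (n : ℝ) ^ 2 ≤ 1 * (n : ℝ) ^ 2 := by linarith
    exact le_of_mul_le_mul_right h4 (by positivity)
  set κ : ℝ := c * (n : ℝ) / (6 * b) with hκ
  have hκ0 : 0 < κ := by positivity
  have hκn : κ ≤ ((univ : Finset (Fin n)).card : ℝ) := by
    rw [Finset.card_univ, Fintype.card_fin, hκ, div_le_iff₀ (by positivity)]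
    nlinarith
  have hinj : Set.InjOn (fun v : Fin n => univ.filter (fun w => G.Adj v w)) (P : Set (Fin n)) := by
    intro u hu v hv huv
    by_contra hne
    have h1 := hP2 u hu v hv hne
    beta_reduce at huv
    rw [huv, symmDiff_self] at h1
    have h2 : ((⊥ : Finset (Fin n)).card : ℝ) = 0 := by
      rw [Finset.bot_eq_empty, Finset.card_empty, Nat.cast_zero]
    rw [h2] at h1
    linarith
  have hpack := pack (𝒮 := P.image (fun v : Fin n => univ.filter (fun w => G.Adj v w)))
    (X := (univ : Finset (Fin n))) (κ := κ) (d := d) hκ0 hκn (fun S _ => subset_univ S) (by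
      intro S hS S' hS' hne
      rw [mem_image] at hS hS'
      obtain ⟨u, hu, rfl⟩ := hS
      obtain ⟨v, hv, rfl⟩ := hS'
      have huv : u ≠ v := fun h => hne (by rw [h])
      have h1 := hP2 u hu v hv huv
      rw [card_symmDiff'] at h1
      push_cast at h1
      exact h1.le) (by
      intro s hs
      refine le_trans (Finset.Shatters.card_le_vcDim (hs.mono_left ?_)) hd
      exact image_subset_image (subset_univ P))
  rw [card_image_of_injOn hinj, Finset.card_univ, Fintype.card_fin] at hpack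
  have h22 : 22 * (n : ℝ) / κ = 132 * b / c := by
    rw [hκ]
    field_simp
    norm_num
  rw [h22] at hpack
  have h1 : (n : ℝ) ≤ 3 * b / c * P.card := by
    rw [div_le_iff₀ (by positivity)] at hP1
    rw [div_mul_eq_mul_div, le_div_iff₀ hc]
    linarith
  refine h1.trans ?_
  rw [pow_succ, mul_comm ((132 * (b : ℝ) / c) ^ d)]
  refine mul_le_mul ?_ hpack (by positivity) (by positivity)
  gcongr
  norm_num

/-- Books in graphs of VC dimension at most `d`. -/
theorem book_ge (n d : ℕ) (c : ℝ) (hc : 0 < c) (hn : 1 ≤ n)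
    (G : SimpleGraph (Fin n)) [DecidableRel G.Adj]
    (hE : c * (n : ℝ) ^ 2 ≤ (G.edgeFinset.card : ℝ))
    (htri : ∀ u v : Fin n, G.Adj u v → ∃ w : Fin n, G.Adj u w ∧ G.Adj v w)
    (hd : (univ.image (fun v : Fin n => univ.filter (fun w => G.Adj v w))).vcDim ≤ d) :
    ∃ u v : Fin n, G.Adj u v ∧ c / 132 * (n : ℝ) ^ ((1 : ℝ) / ((d : ℝ) + 1)) ≤
      ((univ.filter (fun w : Fin n => G.Adj u w ∧ G.Adj v w)).card : ℝ) := by
  have hn' : (1 : ℝ) ≤ n := by exact_mod_cast hn
  have hne : ((univ : Finset (Fin n × Fin n)).filter (fun p => G.Adj p.1 p.2)).Nonempty := by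
    have h1 : (0 : ℝ) < (G.edgeFinset.card : ℝ) := lt_of_lt_of_le (by positivity) hE
    have h2 : 0 < G.edgeFinset.card := by exact_mod_cast h1
    obtain ⟨e, he⟩ := Finset.card_pos.1 h2
    rw [SimpleGraph.mem_edgeFinset] at he
    induction e using Sym2.ind with
    | _ u v =>
      rw [SimpleGraph.mem_edgeSet] at he
      exact ⟨(u, v), mem_filter.2 ⟨mem_univ _, he⟩⟩
  obtain ⟨⟨u, v⟩, huv, hmax⟩ := Finset.exists_max_image _
    (fun p : Fin n × Fin n => (univ.filter (fun w : Fin n => G.Adj p.1 w ∧ G.Adj p.2 w)).card) hne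
  rw [mem_filter] at huv
  refine ⟨u, v, huv.2, ?_⟩
  set b := (univ.filter (fun w : Fin n => G.Adj u w ∧ G.Adj v w)).card with hb
  have hb1 : 1 ≤ b := by
    obtain ⟨w, hw⟩ := htri u v huv.2
    exact Finset.card_pos.2 ⟨w, mem_filter.2 ⟨mem_univ _, hw⟩⟩
  have hb' : (1 : ℝ) ≤ b := by exact_mod_cast hb1
  have h1 := vc_bound n b d c hc hb1 hn G hE htri
    (fun x y hxy => hmax (x, y) (mem_filter.2 ⟨mem_univ _, hxy⟩)) hd
  have h2 : (n : ℝ) ^ ((1 : ℝ) / ((d : ℝ) + 1)) ≤ 132 * b / c := by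
    have h3 : (0 : ℝ) ≤ 132 * b / c := by positivity
    have h4 : ((132 * (b : ℝ) / c) ^ (d + 1)) ^ ((1 : ℝ) / ((d : ℝ) + 1)) = 132 * b / c := by
      rw [← Real.rpow_natCast (132 * (b : ℝ) / c) (d + 1), ← Real.rpow_mul h3]
      have h5 : ((d + 1 : ℕ) : ℝ) * (1 / ((d : ℝ) + 1)) = 1 := by
        push_cast
        field_simp
      rw [h5, Real.rpow_one]
    rw [← h4]
    exact Real.rpow_le_rpow (by positivity) h1 (by positivity)
  calc c / 132 * (n : ℝ) ^ ((1 : ℝ) / ((d : ℝ) + 1)) ≤ c / 132 * (132 * b / c) :=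
        mul_le_mul_of_nonneg_left h2 (by positivity)
    _ = b := by field_simp

/-- The conclusion of the question for graphs of VC dimension at most
`(1 - ε) log n / log log n`. -/
theorem log_vc (c C ε : ℝ) (hc : 0 < c) (hC : 0 < C) (hε : 0 < ε) (hε1 : ε < 1) : ∃ N : ℕ, ∀ n : ℕ, N ≤ n →
    ∀ (G : SimpleGraph (Fin n)) [DecidableRel G.Adj],
      c * (n : ℝ) ^ 2 ≤ (G.edgeFinset.card : ℝ) →
      (∀ u v : Fin n, G.Adj u v → ∃ w : Fin n, G.Adj u w ∧ G.Adj v w) →
      ((univ.image (fun v : Fin n => univ.filter (fun w => G.Adj v w))).vcDim : ℝ) ≤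
        (1 - ε) * Real.log n / Real.log (Real.log n) →
      ∃ u v : Fin n, G.Adj u v ∧ C * Real.log n ≤
        ((univ.filter (fun w : Fin n => G.Adj u w ∧ G.Adj v w)).card : ℝ) := by
  have hev : ∀ᶠ n : ℕ in Filter.atTop, 1 ≤ Real.log (Real.log n) ∧
      ((1 - ε) * Real.log n / Real.log (Real.log n) + 1) *
        (Real.log (Real.log n) + Real.log (132 * C / c)) ≤ Real.log n := by
    have h1 : Filter.Tendsto (fun n : ℕ => Real.log (n : ℝ)) Filter.atTop Filter.atTop :=
      Real.tendsto_log_atTop.comp tendsto_natCast_atTop_atTop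
    suffices h : ∀ᶠ L : ℝ in Filter.atTop, 1 ≤ Real.log L ∧
        ((1 - ε) * L / Real.log L + 1) * (Real.log L + Real.log (132 * C / c)) ≤ L from
      h1.eventually h
    set M : ℝ := |Real.log (132 * C / c)| with hM
    have h2 : ∀ᶠ L : ℝ in Filter.atTop, max 1 (2 * M / ε) ≤ Real.log L :=
      Real.tendsto_log_atTop.eventually_ge_atTop _
    have h3 : ∀ᶠ L : ℝ in Filter.atTop, (Real.log L + M) ≤ ε / 2 * L := by
      have h4 : (fun L : ℝ => Real.log L + M) =o[Filter.atTop] (fun L : ℝ => L) := by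
        refine Real.isLittleO_log_id_atTop.add ?_
        exact Asymptotics.isLittleO_const_left.2 (Or.inr
          (Filter.tendsto_abs_atTop_atTop))
      filter_upwards [h4.bound (show 0 < ε / 2 by positivity), Filter.eventually_ge_atTop 0]
        with L hL hL0
      rw [Real.norm_eq_abs, Real.norm_eq_abs, abs_of_nonneg hL0] at hL
      exact (le_abs_self _).trans hL
    filter_upwards [h2, h3, Filter.eventually_gt_atTop 0] with L h5 h6 hL0
    have h7 : 1 ≤ Real.log L := (le_max_left _ _).trans h5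
    have h8 : 2 * M / ε ≤ Real.log L := (le_max_right _ _).trans h5
    refine ⟨h7, ?_⟩
    have hl : 0 < Real.log L := by linarith
    have hM0 : 0 ≤ M := abs_nonneg _
    have hlog : Real.log (132 * C / c) ≤ M := le_abs_self _
    have h9 : M / Real.log L ≤ ε / 2 := by
      rw [div_le_iff₀ hl]
      rw [div_le_iff₀ hε] at h8
      linarith
    have h10 : (1 - ε) * L / Real.log L * (Real.log L + Real.log (132 * C / c)) ≤
        (1 - ε) * L * (1 + ε / 2) := by
      have h11 : (1 - ε) * L / Real.log L * (Real.log L + Real.log (132 * C / c))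
          = (1 - ε) * L * (1 + Real.log (132 * C / c) / Real.log L) := by
        field_simp
      rw [h11]
      have h12 : Real.log (132 * C / c) / Real.log L ≤ M / Real.log L :=
        div_le_div_of_nonneg_right hlog hl.le
      have h13 : (0 : ℝ) ≤ (1 - ε) * L := mul_nonneg (by linarith) hL0.le
      exact mul_le_mul_of_nonneg_left (by linarith) h13
    have h14 : (1 - ε) * L * (1 + ε / 2) ≤ L - ε / 2 * L := by
      nlinarith [mul_pos (mul_pos hε hε) hL0]
    linarith
  obtain ⟨N, hN⟩ := Filter.eventually_atTop.1 hev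
  refine ⟨max N 3, ?_⟩
  intro n hn G _ hE htri hvc
  obtain ⟨h1, h2⟩ := hN n ((le_max_left _ _).trans hn)
  have hn3 : 3 ≤ n := (le_max_right _ _).trans hn
  set d := (univ.image (fun v : Fin n => univ.filter (fun w => G.Adj v w))).vcDim with hd
  obtain ⟨u, v, huv, hb⟩ := book_ge n d c hc (by omega) G hE htri le_rfl
  refine ⟨u, v, huv, le_trans ?_ hb⟩
  have hn0 : (0 : ℝ) < n := by exact_mod_cast (by omega : 0 < n)
  have hL0 : 0 < Real.log (n : ℝ) := Real.log_pos (by exact_mod_cast (by omega : 1 < n))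
  have hd1 : (0 : ℝ) < (d : ℝ) + 1 := by positivity
  have hK : 0 < 132 * C / c := by positivity
  have h3 : ((d : ℝ) + 1) * (Real.log (Real.log n) + Real.log (132 * C / c)) ≤ Real.log n := by
    rcases le_total 0 (Real.log (Real.log n) + Real.log (132 * C / c)) with h4 | h4
    · exact (mul_le_mul_of_nonneg_right (by linarith) h4).trans h2
    · exact (mul_nonpos_of_nonneg_of_nonpos hd1.le h4).trans hL0.le
  have h4 : Real.log (Real.log n) + Real.log (132 * C / c) ≤
      Real.log n * ((1 : ℝ) / ((d : ℝ) + 1)) := by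
    rw [mul_one_div, le_div_iff₀ hd1]
    linarith
  have h5 := Real.exp_le_exp.2 h4
  rw [Real.exp_add, Real.exp_log hL0, Real.exp_log hK, ← Real.rpow_def_of_pos hn0] at h5
  calc C * Real.log n = c / 132 * (Real.log n * (132 * C / c)) := by field_simp
    _ ≤ c / 132 * (n : ℝ) ^ ((1 : ℝ) / ((d : ℝ) + 1)) :=
        mul_le_mul_of_nonneg_left h5 (by positivity)

end Pool.Agent.Lib.MP_cd78fc_co.VC
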