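import Pool.Agent.Lib.MP_cd78fc_co.VC.Pack

set_option autoImplicit false

/-!
# Small books force neighbourhoods which are far apart
-/

namespace Pool.Agent.Lib.MP_cd78fc_co.VC

open Finset

variable {V : Type*} [Fintype V] [DecidableEq V] (G : SimpleGraph V) [DecidableRel G.Adj]

/-- The neighbourhood of `v`. -/
def nb (v : V) : Finset V := univ.filter (fun w => G.Adj v w)

omit [DecidableEq V] in
lemma mem_nb {v w : V} : w ∈ nb G v ↔ G.Adj v w := by
  unfold nb
  rw [mem_filter]
  exact ⟨fun h => h.2, fun h => ⟨mem_univ _, h⟩⟩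

/-- The number of vertices in which the neighbourhoods of `u` and `v` differ. -/
def ds (u v : V) : ℕ := (nb G u \ nb G v).card + (nb G v \ nb G u).card

/-- The neighbours `y` of `x` which miss at least a third of `C`. -/
def bad (C : Finset V) (x : V) : Finset V :=
  (nb G x).filter (fun y => C.card ≤ 3 * (C.filter (fun x' => y ∉ nb G x')).card)

lemma card_bad (C : Finset V) (x : V) :
    C.card * (bad G C x).card ≤ 3 * ∑ x' ∈ C, (nb G x \ nb G x').card := by
  have h1 : ∑ y ∈ bad G C x, C.card ≤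
      ∑ y ∈ bad G C x, 3 * (C.filter (fun x' => y ∉ nb G x')).card :=
    Finset.sum_le_sum fun y hy => (mem_filter.1 hy).2
  rw [Finset.sum_const, smul_eq_mul, mul_comm] at h1
  refine h1.trans ?_
  rw [← Finset.mul_sum]
  refine Nat.mul_le_mul_left 3 ?_
  refine (Finset.sum_le_sum_of_subset (filter_subset _ _ : bad G C x ⊆ nb G x)).trans ?_
  have h2 : ∀ y ∈ nb G x, (C.filter (fun x' => y ∉ nb G x')).card
      = ∑ x' ∈ C, if y ∉ nb G x' then 1 else 0 := fun y _ => Finset.card_filter _ _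
  rw [Finset.sum_congr rfl h2, Finset.sum_comm]
  refine Finset.sum_le_sum fun x' _ => ?_
  rw [← Finset.card_filter]
  refine Finset.card_le_card ?_
  intro y hy
  rw [mem_filter] at hy
  exact mem_sdiff.2 hy

omit [Fintype V] in
lemma sdiff_tri (A B C : Finset V) : (A \ C).card ≤ (A \ B).card + (B \ C).card := by
  refine (Finset.card_le_card ?_).trans (Finset.card_union_le _ _)
  intro y hy
  rw [mem_sdiff] at hy
  rw [mem_union, mem_sdiff, mem_sdiff]
  by_cases h : y ∈ B
  · exact Or.inr ⟨h, hy.2⟩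
  · exact Or.inl ⟨hy.1, h⟩

/-- In a class with centre `q` there are few bad pairs. -/
lemma sum_bad {C : Finset V} {q : V} {κ : ℝ} (hq : ∀ x ∈ C, (ds G x q : ℝ) ≤ κ) :
    ∑ x ∈ C, ((bad G C x).card : ℝ) ≤ 3 * κ * C.card := by
  rcases C.eq_empty_or_nonempty with rfl | hC
  · simp
  have hc : (0 : ℝ) < C.card := by exact_mod_cast Finset.card_pos.2 hC
  have h1 : ∀ x ∈ C, (C.card : ℝ) * ((bad G C x).card : ℝ) ≤
      3 * ∑ x' ∈ C, ((nb G x \ nb G x').card : ℝ) := by
    intro x _
    exact_mod_cast card_bad G C x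
  have h2 := Finset.sum_le_sum h1
  rw [← Finset.mul_sum, ← Finset.mul_sum] at h2
  have h3 : ∑ x ∈ C, ∑ x' ∈ C, ((nb G x \ nb G x').card : ℝ) ≤ κ * C.card * C.card := by
    have h4 : ∀ x ∈ C, ∑ x' ∈ C, ((nb G x \ nb G x').card : ℝ) ≤
        ∑ x' ∈ C, (((nb G x \ nb G q).card : ℝ) + ((nb G q \ nb G x').card : ℝ)) := by
      intro x _
      refine Finset.sum_le_sum fun x' _ => ?_
      exact_mod_cast sdiff_tri (nb G x) (nb G q) (nb G x')
    refine (Finset.sum_le_sum h4).trans ?_
    simp only [Finset.sum_add_distrib, Finset.sum_const, nsmul_eq_mul]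
    rw [← Finset.mul_sum, ← mul_add, ← Finset.sum_add_distrib]
    have h5 : ∑ x ∈ C, (((nb G x \ nb G q).card : ℝ) + ((nb G q \ nb G x).card : ℝ)) ≤
        ∑ x ∈ C, κ := by
      refine Finset.sum_le_sum fun x hx => ?_
      have := hq x hx
      unfold ds at this
      push_cast at this
      exact this
    rw [Finset.sum_const, nsmul_eq_mul] at h5
    have h6 := mul_le_mul_of_nonneg_left h5 hc.le
    linarith
  have h7 : (C.card : ℝ) * ∑ x ∈ C, ((bad G C x).card : ℝ) ≤ (C.card : ℝ) * (3 * κ * C.card) := by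
    linarith
  exact le_of_mul_le_mul_left h7 hc

/-- The degree of a vertex of a large class is at most `b + 1` times the number of its bad
neighbours. -/
lemma deg_le_bad {b : ℕ} {C : Finset V} {x : V} (hC : 3 * b < C.card)
    (htri : ∀ u v, G.Adj u v → ∃ w, G.Adj u w ∧ G.Adj v w)
    (hbook : ∀ u v, G.Adj u v → (univ.filter fun w => G.Adj u w ∧ G.Adj v w).card ≤ b) :
    (nb G x).card ≤ (b + 1) * (bad G C x).card := by
  have h1 : nb G x ⊆ bad G C x ∪ (bad G C x).biUnion (fun z => nb G x ∩ nb G z) := by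
    intro y hy
    rw [mem_union, mem_biUnion]
    by_cases hyb : y ∈ bad G C x
    · exact Or.inl hyb
    right
    obtain ⟨z, hz1, hz2⟩ := htri x y ((mem_nb G).1 hy)
    refine ⟨z, ?_, ?_⟩
    · by_contra hzb
      have hy2 : 3 * (C.filter (fun x' => y ∉ nb G x')).card < C.card := by
        by_contra h
        exact hyb (mem_filter.2 ⟨hy, by omega⟩)
      have hz3 : 3 * (C.filter (fun x' => z ∉ nb G x')).card < C.card := by
        by_contra h
        exact hzb (mem_filter.2 ⟨(mem_nb G).2 hz1, by omega⟩)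
      have h2 : C ⊆ (C.filter (fun x' => y ∉ nb G x') ∪ C.filter (fun x' => z ∉ nb G x')) ∪
          univ.filter (fun w => G.Adj y w ∧ G.Adj z w) := by
        intro w hw
        rw [mem_union, mem_union, mem_filter, mem_filter, mem_filter, mem_nb, mem_nb]
        by_cases h3 : G.Adj w y
        · by_cases h4 : G.Adj w z
          · exact Or.inr ⟨mem_univ _, h3.symm, h4.symm⟩
          · exact Or.inl (Or.inr ⟨hw, h4⟩)
        · exact Or.inl (Or.inl ⟨hw, h3⟩)
      have h3 := (Finset.card_le_card h2).trans (Finset.card_union_le _ _)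
      have h4 := Finset.card_union_le (C.filter (fun x' => y ∉ nb G x'))
        (C.filter (fun x' => z ∉ nb G x'))
      have h5 := hbook y z hz2
      omega
    · rw [mem_inter, mem_nb, mem_nb]
      exact ⟨(mem_nb G).1 hy, hz2.symm⟩
  refine (Finset.card_le_card h1).trans ((Finset.card_union_le _ _).trans ?_)
  have h6 : ((bad G C x).biUnion (fun z => nb G x ∩ nb G z)).card ≤ (bad G C x).card * b := by
    refine Finset.card_biUnion_le_card_mul _ _ _ ?_
    intro z hz
    have hxz : G.Adj x z := (mem_nb G).1 (mem_filter.1 hz).1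
    refine le_trans (Finset.card_le_card ?_) (hbook x z hxz)
    intro w hw
    rw [mem_inter, mem_nb, mem_nb] at hw
    rw [mem_filter]
    exact ⟨mem_univ _, hw⟩
  calc (bad G C x).card + ((bad G C x).biUnion (fun z => nb G x ∩ nb G z)).card
      ≤ (bad G C x).card + (bad G C x).card * b := Nat.add_le_add_left h6 _
    _ = (b + 1) * (bad G C x).card := by ring

/-- The degrees in a class. -/
lemma class_deg {b : ℕ} (hb : 1 ≤ b) {C : Finset V} {q : V} {κ : ℝ} (hκ : 0 ≤ κ)
    (hq : ∀ x ∈ C, (ds G x q : ℝ) ≤ κ)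
    (htri : ∀ u v, G.Adj u v → ∃ w, G.Adj u w ∧ G.Adj v w)
    (hbook : ∀ u v, G.Adj u v → (univ.filter fun w => G.Adj u w ∧ G.Adj v w).card ≤ b) :
    ∑ x ∈ C, ((nb G x).card : ℝ) ≤ 6 * b * κ * C.card + 3 * b * Fintype.card V := by
  have hb' : (1 : ℝ) ≤ b := by exact_mod_cast hb
  by_cases hC : 3 * b < C.card
  · have h1 : ∀ x ∈ C, ((nb G x).card : ℝ) ≤ ((b : ℝ) + 1) * ((bad G C x).card : ℝ) := by
      intro x _
      exact_mod_cast deg_le_bad G hC htri hbook
    refine (Finset.sum_le_sum h1).trans ?_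
    rw [← Finset.mul_sum]
    have h2 := sum_bad G hq
    have h3 : (0 : ℝ) ≤ 3 * κ * C.card := by positivity
    calc ((b : ℝ) + 1) * ∑ x ∈ C, ((bad G C x).card : ℝ)
        ≤ ((b : ℝ) + 1) * (3 * κ * C.card) := mul_le_mul_of_nonneg_left h2 (by positivity)
      _ ≤ (2 * (b : ℝ)) * (3 * κ * C.card) := mul_le_mul_of_nonneg_right (by linarith) h3
      _ ≤ 6 * b * κ * C.card + 3 * b * Fintype.card V := by
          have : (0 : ℝ) ≤ 3 * b * Fintype.card V := by positivity
          linarith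
  · push Not at hC
    have h1 : ∀ x ∈ C, ((nb G x).card : ℝ) ≤ Fintype.card V := by
      intro x _
      exact_mod_cast Finset.card_le_univ _
    refine (Finset.sum_le_sum h1).trans ?_
    rw [Finset.sum_const, nsmul_eq_mul]
    have h2 : (C.card : ℝ) ≤ 3 * b := by exact_mod_cast hC
    have h3 : (0 : ℝ) ≤ 6 * b * κ * C.card := by positivity
    have h4 : (C.card : ℝ) * Fintype.card V ≤ 3 * b * Fintype.card V :=
      mul_le_mul_of_nonneg_right h2 (by positivity)
    linarith

/-- A maximal set of vertices with neighbourhoods far apart. -/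
lemma exists_net (κ : ℝ) (hκ : 0 ≤ κ) : ∃ P : Finset V,
    (∀ u ∈ P, ∀ v ∈ P, u ≠ v → κ < (ds G u v : ℝ)) ∧ ∀ v : V, ∃ p ∈ P, (ds G v p : ℝ) ≤ κ := by
  classical
  obtain ⟨P, hP⟩ := Finset.exists_maximal
    (s := univ.filter (fun P : Finset V => ∀ u ∈ P, ∀ v ∈ P, u ≠ v → κ < (ds G u v : ℝ)))
    ⟨∅, by rw [mem_filter]; exact ⟨mem_univ _, by simp⟩⟩
  have hP1 := (mem_filter.1 hP.1).2
  refine ⟨P, hP1, fun v => ?_⟩
  by_contra hv
  push Not at hv
  have hvP : v ∉ P := by
    intro h
    have h1 := hv v h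
    have h2 : ds G v v = 0 := by
      unfold ds
      rw [sdiff_self]
      rfl
    rw [h2, Nat.cast_zero] at h1
    linarith
  have hsym : ∀ u w, ds G u w = ds G w u := fun u w => Nat.add_comm _ _
  have h3 : insert v P ∈ univ.filter
      (fun P : Finset V => ∀ u ∈ P, ∀ v ∈ P, u ≠ v → κ < (ds G u v : ℝ)) := by
    rw [mem_filter]
    refine ⟨mem_univ _, ?_⟩
    intro u hu w hw huw
    rw [mem_insert] at hu hw
    rcases hu with rfl | hu
    · rcases hw with rfl | hw
      · exact absurd rfl huw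
      · exact hv w hw
    · rcases hw with rfl | hw
      · rw [hsym]
        exact hv u hu
      · exact hP1 u hu w hw huw
  exact hvP (hP.2 h3 (subset_insert v P) (mem_insert_self v P))

/-- Small books force neighbourhoods which are far apart. -/
theorem far_apart {b : ℕ} (hb : 1 ≤ b) {κ : ℝ} (hκ : 0 ≤ κ)
    (htri : ∀ u v, G.Adj u v → ∃ w, G.Adj u w ∧ G.Adj v w)
    (hbook : ∀ u v, G.Adj u v → (univ.filter fun w => G.Adj u w ∧ G.Adj v w).card ≤ b) :
    ∃ P : Finset V, (∀ u ∈ P, ∀ v ∈ P, u ≠ v → κ < (ds G u v : ℝ)) ∧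
      ∑ x : V, ((nb G x).card : ℝ) ≤
        6 * b * κ * Fintype.card V + 3 * b * Fintype.card V * P.card := by
  obtain ⟨P, hP1, hP2⟩ := exists_net G κ hκ
  choose p hpP hp using hP2
  refine ⟨P, hP1, ?_⟩
  rw [← Finset.sum_fiberwise_of_maps_to (s := univ) (t := P) (g := p) (fun v _ => hpP v)]
  have h1 : ∀ q ∈ P, ∑ x ∈ univ.filter (fun x => p x = q), ((nb G x).card : ℝ) ≤
      6 * b * κ * ((univ.filter (fun x => p x = q)).card : ℝ) + 3 * b * Fintype.card V := by
    intro q _
    refine class_deg G hb hκ (q := q) ?_ htri hbook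
    intro x hx
    rw [mem_filter] at hx
    have := hp x
    rwa [hx.2] at this
  refine (Finset.sum_le_sum h1).trans ?_
  rw [Finset.sum_add_distrib, ← Finset.mul_sum, Finset.sum_const, nsmul_eq_mul]
  have h2 : ∑ q ∈ P, ((univ.filter (fun x => p x = q)).card : ℝ) = Fintype.card V := by
    rw [← Nat.cast_sum, ← Finset.card_eq_sum_card_fiberwise (f := p) (s := univ) (t := P)
      (fun v _ => hpP v), Finset.card_univ]
  rw [h2]
  linarith

end Pool.Agent.Lib.MP_cd78fc_co.VC
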