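import Mathlib

set_option autoImplicit false

/-!
# The one-inclusion graph of a set family

If no set with more than `d` elements is shattered by `𝒬` then the one-inclusion graph of `𝒬` has at
most `d * |𝒬|` edges (Haussler).
-/

namespace Pool.Agent.Lib.MP_cd78fc_co.VC

open Finset

variable {α : Type*} [DecidableEq α]

/-- The edges of the one-inclusion graph in the direction `a`. -/
def incl (𝒬 : Finset (Finset α)) (a : α) : Finset (Finset α) :=
  𝒬.filter (fun Q => a ∉ Q ∧ insert a Q ∈ 𝒬)

lemma mem_incl {𝒬 : Finset (Finset α)} {a : α} {Q : Finset α} :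
    Q ∈ incl 𝒬 a ↔ Q ∈ 𝒬 ∧ a ∉ Q ∧ insert a Q ∈ 𝒬 := by
  unfold incl
  rw [mem_filter]

lemma incl_split {𝒬 : Finset (Finset α)} {a x : α} (hax : a ≠ x) :
    (incl 𝒬 a).card ≤ (incl (memberSubfamily x 𝒬) a).card + (incl (nonMemberSubfamily x 𝒬) a).card := by
  have h1 : (incl 𝒬 a).card = ((incl 𝒬 a).filter (fun Q => x ∈ Q)).card
      + ((incl 𝒬 a).filter (fun Q => ¬ x ∈ Q)).card :=
    (Finset.card_filter_add_card_filter_not (s := incl 𝒬 a) (fun Q => x ∈ Q)).symm
  rw [h1]
  refine Nat.add_le_add ?_ ?_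
  · refine Finset.card_le_card_of_injOn (fun Q => Q.erase x) ?_ ?_
    · intro Q hQ
      rw [mem_coe, mem_filter, mem_incl] at hQ
      obtain ⟨⟨h2, h3, h4⟩, h5⟩ := hQ
      rw [mem_coe, mem_incl, mem_memberSubfamily, mem_memberSubfamily]
      refine ⟨⟨by rwa [insert_erase h5], notMem_erase x Q⟩, ?_, ?_, ?_⟩
      · exact fun h => h3 (mem_of_mem_erase h)
      · have e1 : insert x (insert a (Q.erase x)) = insert a Q := by
          rw [Finset.insert_comm, insert_erase h5]
        rwa [e1]
      · rw [mem_insert]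
        rintro (h | h)
        · exact hax h.symm
        · exact notMem_erase x Q h
    · intro Q hQ Q' hQ' h
      rw [mem_coe, mem_filter] at hQ hQ'
      have := congrArg (insert x) h
      simpa only [insert_erase hQ.2, insert_erase hQ'.2] using this
  · refine Finset.card_le_card ?_
    intro Q hQ
    rw [mem_filter, mem_incl] at hQ
    obtain ⟨⟨h2, h3, h4⟩, h5⟩ := hQ
    rw [mem_incl, mem_nonMemberSubfamily, mem_nonMemberSubfamily]
    refine ⟨⟨h2, h5⟩, h3, h4, ?_⟩
    rw [mem_insert]
    rintro (h | h)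
    · exact hax h.symm
    · exact h5 h

lemma incl_union_inter (M N : Finset (Finset α)) (a : α) :
    (incl M a).card + (incl N a).card ≤ (incl (M ∪ N) a).card + (incl (M ∩ N) a).card := by
  rw [← Finset.card_union_add_card_inter]
  refine Nat.add_le_add (Finset.card_le_card ?_) (Finset.card_le_card ?_)
  · intro Q hQ
    rw [mem_union, mem_incl, mem_incl] at hQ
    rw [mem_incl, mem_union, mem_union]
    rcases hQ with h | h
    · exact ⟨Or.inl h.1, h.2.1, Or.inl h.2.2⟩
    · exact ⟨Or.inr h.1, h.2.1, Or.inr h.2.2⟩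
  · intro Q hQ
    rw [mem_inter, mem_incl, mem_incl] at hQ
    rw [mem_incl, mem_inter, mem_inter]
    exact ⟨⟨hQ.1.1, hQ.2.1⟩, hQ.1.2.1, ⟨hQ.1.2.2, hQ.2.2.2⟩⟩

lemma incl_self (𝒬 : Finset (Finset α)) (x : α) :
    incl 𝒬 x = memberSubfamily x 𝒬 ∩ nonMemberSubfamily x 𝒬 := by
  ext Q
  rw [mem_incl, mem_inter, mem_memberSubfamily, mem_nonMemberSubfamily]
  tauto

lemma shatters_union {𝒬 : Finset (Finset α)} {x : α} {s : Finset α}
    (h : (memberSubfamily x 𝒬 ∪ nonMemberSubfamily x 𝒬).Shatters s) : 𝒬.Shatters s := by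
  have hx : x ∉ s := by
    intro hx
    obtain ⟨u, hu, hsu⟩ := h.exists_superset
    rw [mem_union, mem_memberSubfamily, mem_nonMemberSubfamily] at hu
    rcases hu with hu | hu
    · exact hu.2 (hsu hx)
    · exact hu.2 (hsu hx)
  intro t ht
  obtain ⟨u, hu, rfl⟩ := h ht
  rw [mem_union, mem_memberSubfamily, mem_nonMemberSubfamily] at hu
  rcases hu with hu | hu
  · exact ⟨insert x u, hu.1, inter_insert_of_notMem hx⟩
  · exact ⟨u, hu.1, rfl⟩

lemma shatters_inter {𝒬 : Finset (Finset α)} {x : α} {s : Finset α}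
    (h : (memberSubfamily x 𝒬 ∩ nonMemberSubfamily x 𝒬).Shatters s) :
    x ∉ s ∧ 𝒬.Shatters (insert x s) := by
  have hx : x ∉ s := by
    intro hx
    obtain ⟨u, hu, hsu⟩ := h.exists_superset
    rw [mem_inter, mem_memberSubfamily, mem_nonMemberSubfamily] at hu
    exact hu.1.2 (hsu hx)
  refine ⟨hx, ?_⟩
  intro t ht
  have ht' : t.erase x ⊆ s := by
    intro y hy
    rw [mem_erase] at hy
    rcases mem_insert.1 (ht hy.2) with h1 | h1
    · exact absurd h1 hy.1
    · exact h1
  obtain ⟨u, hu, hut⟩ := h ht'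
  rw [mem_inter, mem_memberSubfamily, mem_nonMemberSubfamily] at hu
  by_cases hxt : x ∈ t
  · refine ⟨insert x u, hu.1.1, ?_⟩
    rw [← insert_inter_distrib, hut, insert_erase hxt]
  · refine ⟨u, hu.2.1, ?_⟩
    rw [insert_inter_of_notMem hu.1.2, hut, erase_eq_of_notMem hxt]

/-- The one-inclusion graph of a family which shatters no set with more than `d` elements has at most
`d * |𝒬|` edges. -/
theorem incl_card (X : Finset α) : ∀ (𝒬 : Finset (Finset α)) (d : ℕ), (∀ Q ∈ 𝒬, Q ⊆ X) →
    (∀ s, 𝒬.Shatters s → s.card ≤ d) → ∑ a ∈ X, (incl 𝒬 a).card ≤ d * 𝒬.card := by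
  induction X using Finset.induction_on with
  | empty =>
    intro 𝒬 d _ _
    rw [Finset.sum_empty]
    exact Nat.zero_le _
  | insert x X hx ih =>
    intro 𝒬 d hX hd
    set M := memberSubfamily x 𝒬 with hM
    set N := nonMemberSubfamily x 𝒬 with hN
    have hMX : ∀ Q ∈ M, Q ⊆ X := by
      intro Q hQ y hy
      rw [hM, mem_memberSubfamily] at hQ
      rcases mem_insert.1 (hX _ hQ.1 (mem_insert_of_mem hy)) with h | h
      · exact absurd (h ▸ hy) hQ.2
      · exact h
    have hNX : ∀ Q ∈ N, Q ⊆ X := by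
      intro Q hQ y hy
      rw [hN, mem_nonMemberSubfamily] at hQ
      rcases mem_insert.1 (hX _ hQ.1 hy) with h | h
      · exact absurd (h ▸ hy) hQ.2
      · exact h
    have hU : ∑ a ∈ X, (incl (M ∪ N) a).card ≤ d * (M ∪ N).card := by
      refine ih (M ∪ N) d ?_ fun s hs => hd s (shatters_union hs)
      intro Q hQ
      rcases mem_union.1 hQ with h | h
      · exact hMX Q h
      · exact hNX Q h
    have hI : (M ∩ N).card + ∑ a ∈ X, (incl (M ∩ N) a).card ≤ d * (M ∩ N).card := by
      by_cases hne : (M ∩ N).Nonempty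
      · have h0 : (M ∩ N).Shatters ∅ := shatters_empty.2 hne
        have h1 := hd _ (shatters_inter h0).2
        have h1' : 1 ≤ d := by
          refine le_trans ?_ h1
          rw [Nat.succ_le_iff, Finset.card_pos]
          exact ⟨x, mem_insert_self _ _⟩
        have h2 := ih (M ∩ N) (d - 1) (fun Q hQ => hMX Q (mem_inter.1 hQ).1) (by
          intro s hs
          obtain ⟨h3, h4⟩ := shatters_inter hs
          have h5 := hd _ h4
          rw [card_insert_of_notMem h3] at h5
          omega)
        obtain ⟨e, rfl⟩ : ∃ e, d = e + 1 := ⟨d - 1, by omega⟩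
        rw [Nat.add_sub_cancel] at h2
        rw [add_mul, one_mul]
        omega
      · rw [Finset.not_nonempty_iff_eq_empty] at hne
        rw [hne]
        have h3 : ∀ a ∈ X, (incl (∅ : Finset (Finset α)) a).card = 0 := by
          intro a _
          rw [Finset.card_eq_zero]
          exact Finset.filter_empty _
        rw [Finset.sum_congr rfl h3]
        simp
    have hsum : ∑ a ∈ X, (incl 𝒬 a).card ≤
        ∑ a ∈ X, (incl (M ∪ N) a).card + ∑ a ∈ X, (incl (M ∩ N) a).card := by
      rw [← Finset.sum_add_distrib]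
      refine Finset.sum_le_sum fun a ha => ?_
      have hax : a ≠ x := fun h => hx (h ▸ ha)
      exact (incl_split hax).trans (incl_union_inter _ _ a)
    rw [Finset.sum_insert hx, incl_self, ← hM, ← hN]
    have hcard : (M ∪ N).card + (M ∩ N).card = 𝒬.card := by
      rw [Finset.card_union_add_card_inter]
      exact card_memberSubfamily_add_card_nonMemberSubfamily x 𝒬
    rw [← hcard, mul_add]
    omega

end Pool.Agent.Lib.MP_cd78fc_co.VC
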