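import Pool.Agent.Lib.MP_cd78fc_co.VC.Incl

set_option autoImplicit false

/-!
# Haussler's packing lemma

A family of subsets of a set with `n` elements which shatters no set with more than `d` elements and
any two members of which differ in at least `κ` elements has at most `(22 * n / κ) ^ d` members.
-/

namespace Pool.Agent.Lib.MP_cd78fc_co.VC

open Finset

variable {α : Type*} [DecidableEq α]

/-- The members of `𝒮` with trace `Q` on `A`. -/
def cls (𝒮 : Finset (Finset α)) (A Q : Finset α) : Finset (Finset α) :=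
  𝒮.filter (fun S => A ∩ S = Q)

lemma sum_cls (𝒮 : Finset (Finset α)) (A : Finset α) :
    ∑ Q ∈ A.powerset, (cls 𝒮 A Q).card = 𝒮.card :=
  (Finset.card_eq_sum_card_fiberwise
    (fun S _ => mem_coe.2 (mem_powerset.2 (inter_subset_left : A ∩ S ⊆ A)))).symm

/-- The weight of the edges of the one-inclusion graph of the traces on `insert a A` in the
direction `a`. -/
def wt (𝒮 : Finset (Finset α)) (A : Finset α) (a : α) : ℕ :=
  ∑ Q ∈ A.powerset, min (cls 𝒮 (insert a A) Q).card (cls 𝒮 (insert a A) (insert a Q)).card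

lemma min_eq_sum (m n N : ℕ) (hm : m ≤ N) :
    min m n = ∑ t ∈ range N, if t < m ∧ t < n then 1 else 0 := by
  rw [← Finset.card_filter]
  have e : (range N).filter (fun t => t < m ∧ t < n) = range (min m n) := by
    ext t
    rw [mem_filter, mem_range, mem_range, lt_min_iff]
    constructor
    · exact fun h => h.2
    · exact fun h => ⟨lt_of_lt_of_le h.1 hm, h⟩
  rw [e, card_range]

lemma shatters_of_traces {𝒮 : Finset (Finset α)} {A s : Finset α} {t : ℕ}
    (h : (A.powerset.filter (fun Q => t < (cls 𝒮 A Q).card)).Shatters s) : 𝒮.Shatters s := by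
  have hsA : s ⊆ A := by
    obtain ⟨u, hu, hsu⟩ := h.exists_superset
    rw [mem_filter, mem_powerset] at hu
    exact hsu.trans hu.1
  intro r hr
  obtain ⟨u, hu, hur⟩ := h hr
  rw [mem_filter] at hu
  obtain ⟨S, hS⟩ := Finset.card_pos.1 (lt_of_le_of_lt (Nat.zero_le t) hu.2)
  rw [cls, mem_filter] at hS
  refine ⟨S, hS.1, ?_⟩
  rw [← hur, ← hS.2, ← inter_assoc, inter_eq_left.2 hsA]

lemma weight_le {𝒮 : Finset (Finset α)} {d : ℕ} (hd : ∀ s, 𝒮.Shatters s → s.card ≤ d)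
    (A : Finset α) : ∑ a ∈ A, wt 𝒮 (A.erase a) a ≤ d * 𝒮.card := by
  have h1 : ∀ a ∈ A, wt 𝒮 (A.erase a) a = ∑ t ∈ range 𝒮.card,
      ((A.erase a).powerset.filter (fun Q => t < (cls 𝒮 A Q).card ∧
        t < (cls 𝒮 A (insert a Q)).card)).card := by
    intro a ha
    unfold wt
    rw [insert_erase ha]
    have h2 : ∀ Q ∈ (A.erase a).powerset,
        min (cls 𝒮 A Q).card (cls 𝒮 A (insert a Q)).card
        = ∑ t ∈ range 𝒮.card, if t < (cls 𝒮 A Q).card ∧ t < (cls 𝒮 A (insert a Q)).card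
          then 1 else 0 := by
      intro Q _
      exact min_eq_sum _ _ _ (Finset.card_filter_le _ _)
    rw [Finset.sum_congr rfl h2, Finset.sum_comm]
    refine Finset.sum_congr rfl fun t _ => ?_
    rw [Finset.card_filter]
  rw [Finset.sum_congr rfl h1, Finset.sum_comm]
  have h3 : ∀ t ∈ range 𝒮.card, ∑ a ∈ A,
      ((A.erase a).powerset.filter (fun Q => t < (cls 𝒮 A Q).card ∧
        t < (cls 𝒮 A (insert a Q)).card)).card
      ≤ d * (A.powerset.filter (fun Q => t < (cls 𝒮 A Q).card)).card := by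
    intro t _
    refine le_trans (Finset.sum_le_sum fun a ha => ?_)
      (incl_card A (A.powerset.filter (fun Q => t < (cls 𝒮 A Q).card)) d
        (fun Q hQ => mem_powerset.1 (mem_filter.1 hQ).1) (fun s hs => hd s (shatters_of_traces hs)))
    refine Finset.card_le_card ?_
    intro Q hQ
    rw [mem_filter, mem_powerset] at hQ
    rw [mem_incl, mem_filter, mem_filter, mem_powerset, mem_powerset]
    refine ⟨⟨hQ.1.trans (erase_subset _ _), hQ.2.1⟩, fun h => notMem_erase a A (hQ.1 h), ?_, hQ.2.2⟩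
    exact insert_subset ha (hQ.1.trans (erase_subset _ _))
  refine (Finset.sum_le_sum h3).trans ?_
  rw [← Finset.mul_sum]
  refine Nat.mul_le_mul_left d ?_
  have h4 : ∀ t ∈ range 𝒮.card, (A.powerset.filter (fun Q => t < (cls 𝒮 A Q).card)).card
      = ∑ Q ∈ A.powerset, if t < (cls 𝒮 A Q).card then 1 else 0 := by
    intro t _
    rw [Finset.card_filter]
  rw [Finset.sum_congr rfl h4, Finset.sum_comm]
  rw [← sum_cls 𝒮 A]
  refine Finset.sum_le_sum fun Q _ => ?_
  rw [← Finset.card_filter]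
  refine (Finset.card_le_card (t := range (cls 𝒮 A Q).card) ?_).trans ?_
  · intro t ht
    rw [mem_filter] at ht
    exact mem_range.2 ht.2
  · rw [card_range]

/-- The number of traces. -/
lemma card_traces {𝒮 : Finset (Finset α)} {d : ℕ} (hd : ∀ s, 𝒮.Shatters s → s.card ≤ d)
    (A : Finset α) :
    (A.powerset.filter (fun Q => 0 < (cls 𝒮 A Q).card)).card ≤
      ∑ i ∈ range (d + 1), (A.card).choose i := by
  refine (card_le_card_shatterer _).trans ?_
  have h1 : (A.powerset.filter (fun Q => 0 < (cls 𝒮 A Q).card)).shatterer ⊆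
      (range (d + 1)).biUnion (fun i => A.powersetCard i) := by
    intro s hs
    rw [mem_shatterer] at hs
    rw [mem_biUnion]
    refine ⟨s.card, ?_, ?_⟩
    · rw [mem_range]
      exact Nat.lt_succ_of_le (hd s (shatters_of_traces hs))
    · rw [mem_powersetCard]
      refine ⟨?_, rfl⟩
      obtain ⟨u, hu, hsu⟩ := hs.exists_superset
      rw [mem_filter, mem_powerset] at hu
      exact hsu.trans hu.1
  refine (Finset.card_le_card h1).trans (card_biUnion_le.trans ?_)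
  refine Finset.sum_le_sum fun i _ => ?_
  rw [card_powersetCard]

/-- A class of sets any two of which differ in many elements is split by many elements. -/
lemma class_split {C : Finset (Finset α)} {Y : Finset α} {κ : ℝ}
    (hκ : ∀ S ∈ C, ∀ S' ∈ C, S ≠ S' → κ ≤ ((S \ S').card : ℝ) + ((S' \ S).card : ℝ))
    (hY : ∀ S ∈ C, ∀ S' ∈ C, S \ S' ⊆ Y) (hC : C.Nonempty) :
    κ * ((C.card : ℝ) - 1) / 2 ≤
      ∑ a ∈ Y, ((min (C.filter (fun S => a ∉ S)).card (C.filter (fun S => a ∈ S)).card : ℕ) : ℝ) := by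
  have hc : (0 : ℝ) < C.card := by exact_mod_cast Finset.card_pos.2 hC
  have h1 : ∀ a, ((C.filter (fun S => a ∉ S)).card : ℝ) * ((C.filter (fun S => a ∈ S)).card : ℝ) ≤
      (C.card : ℝ) * ((min (C.filter (fun S => a ∉ S)).card
        (C.filter (fun S => a ∈ S)).card : ℕ) : ℝ) := by
    intro a
    have h2 : (C.filter (fun S => a ∉ S)).card ≤ C.card := Finset.card_filter_le _ _
    have h3 : (C.filter (fun S => a ∈ S)).card ≤ C.card := Finset.card_filter_le _ _
    have h4 : (C.filter (fun S => a ∉ S)).card * (C.filter (fun S => a ∈ S)).card ≤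
        C.card * min (C.filter (fun S => a ∉ S)).card (C.filter (fun S => a ∈ S)).card := by
      rcases le_total (C.filter (fun S => a ∉ S)).card (C.filter (fun S => a ∈ S)).card with h | h
      · rw [min_eq_left h, mul_comm]
        exact Nat.mul_le_mul_right _ h3
      · rw [min_eq_right h]
        exact Nat.mul_le_mul_right _ h2
    exact_mod_cast h4
  have h5 : ∑ a ∈ Y, ((C.filter (fun S => a ∉ S)).card : ℝ) *
      ((C.filter (fun S => a ∈ S)).card : ℝ) = ∑ S ∈ C, ∑ S' ∈ C, ((S \ S').card : ℝ) := by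
    have h6 : ∀ a ∈ Y, ((C.filter (fun S => a ∉ S)).card : ℝ) *
        ((C.filter (fun S => a ∈ S)).card : ℝ)
        = ∑ S ∈ C, ∑ S' ∈ C, if a ∈ S \ S' then (1 : ℝ) else 0 := by
      intro a _
      rw [Finset.card_filter, Finset.card_filter]
      push_cast
      rw [mul_comm, Finset.sum_mul_sum]
      refine Finset.sum_congr rfl fun S _ => Finset.sum_congr rfl fun S' _ => ?_
      by_cases ha : a ∈ S <;> by_cases hb : a ∈ S' <;> simp [ha, hb]
    rw [Finset.sum_congr rfl h6, Finset.sum_comm]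
    refine Finset.sum_congr rfl fun S hS => ?_
    rw [Finset.sum_comm]
    refine Finset.sum_congr rfl fun S' hS' => ?_
    rw [← Finset.sum_filter, Finset.sum_const, nsmul_eq_mul, mul_one]
    congr 2
    ext a
    rw [mem_filter]
    exact ⟨fun h => h.2, fun h => ⟨hY S hS S' hS' h, h⟩⟩
  have h7 : κ * ((C.card : ℝ) - 1) * C.card ≤ 2 * ∑ S ∈ C, ∑ S' ∈ C, ((S \ S').card : ℝ) := by
    have h8 : 2 * ∑ S ∈ C, ∑ S' ∈ C, ((S \ S').card : ℝ)
        = ∑ S ∈ C, ∑ S' ∈ C, (((S \ S').card : ℝ) + ((S' \ S).card : ℝ)) := by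
      rw [two_mul]
      simp only [Finset.sum_add_distrib]
      congr 1
      exact Finset.sum_comm
    rw [h8]
    have h9 : ∀ S ∈ C, κ * ((C.card : ℝ) - 1) ≤
        ∑ S' ∈ C, (((S \ S').card : ℝ) + ((S' \ S).card : ℝ)) := by
      intro S hS
      rw [← Finset.sum_erase_add C _ hS]
      have h10 : ∑ S' ∈ C.erase S, κ ≤
          ∑ S' ∈ C.erase S, (((S \ S').card : ℝ) + ((S' \ S).card : ℝ)) := by
        refine Finset.sum_le_sum fun S' hS' => ?_
        rw [mem_erase] at hS'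
        exact hκ S hS S' hS'.2 (Ne.symm hS'.1)
      rw [Finset.sum_const, nsmul_eq_mul, card_erase_of_mem hS,
        Nat.cast_sub (Finset.card_pos.2 hC), Nat.cast_one] at h10
      have h11 : (0 : ℝ) ≤ ((S \ S).card : ℝ) + ((S \ S).card : ℝ) := by positivity
      linarith
    have h12 := Finset.sum_le_sum h9
    rw [Finset.sum_const, nsmul_eq_mul] at h12
    linarith
  have h13 : ∑ a ∈ Y, ((C.filter (fun S => a ∉ S)).card : ℝ) *
      ((C.filter (fun S => a ∈ S)).card : ℝ) ≤ (C.card : ℝ) *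
      ∑ a ∈ Y, ((min (C.filter (fun S => a ∉ S)).card (C.filter (fun S => a ∈ S)).card : ℕ) : ℝ) := by
    rw [Finset.mul_sum]
    exact Finset.sum_le_sum fun a _ => h1 a
  rw [h5] at h13
  have h14 : κ * ((C.card : ℝ) - 1) * C.card ≤ 2 * ((C.card : ℝ) *
      ∑ a ∈ Y, ((min (C.filter (fun S => a ∉ S)).card
        (C.filter (fun S => a ∈ S)).card : ℕ) : ℝ)) := by linarith
  have h15 : κ * ((C.card : ℝ) - 1) ≤ 2 *
      ∑ a ∈ Y, ((min (C.filter (fun S => a ∉ S)).card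
        (C.filter (fun S => a ∈ S)).card : ℕ) : ℝ) := by
    refine le_of_mul_le_mul_right ?_ hc
    linarith
  linarith

/-- The weight of `A`, summed over the directions. -/
lemma weight_ge {𝒮 : Finset (Finset α)} {X A : Finset α} {κ : ℝ} (h𝒮 : ∀ S ∈ 𝒮, S ⊆ X)
    (hκ : ∀ S ∈ 𝒮, ∀ S' ∈ 𝒮, S ≠ S' → κ ≤ ((S \ S').card : ℝ) + ((S' \ S).card : ℝ))
    : κ / 2 * ((𝒮.card : ℝ) - ((A.powerset.filter (fun Q => 0 < (cls 𝒮 A Q).card)).card : ℝ)) ≤
      ∑ a ∈ X \ A, (wt 𝒮 A a : ℝ) := by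
  have h1 : ∑ a ∈ X \ A, (wt 𝒮 A a : ℝ) = ∑ Q ∈ A.powerset, ∑ a ∈ X \ A,
      ((min ((cls 𝒮 A Q).filter (fun S => a ∉ S)).card
        ((cls 𝒮 A Q).filter (fun S => a ∈ S)).card : ℕ) : ℝ) := by
    rw [Finset.sum_comm]
    refine Finset.sum_congr rfl fun a ha => ?_
    rw [mem_sdiff] at ha
    unfold wt
    rw [Nat.cast_sum]
    refine Finset.sum_congr rfl fun Q hQ => ?_
    rw [mem_powerset] at hQ
    have haQ : a ∉ Q := fun h => ha.2 (hQ h)
    have e1 : cls 𝒮 (insert a A) Q = (cls 𝒮 A Q).filter (fun S => a ∉ S) := by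
      ext S
      unfold cls
      rw [mem_filter, mem_filter, mem_filter]
      constructor
      · rintro ⟨h1, h2⟩
        have h3 : a ∉ S := by
          intro h3
          have : a ∈ insert a A ∩ S := mem_inter.2 ⟨mem_insert_self _ _, h3⟩
          rw [h2] at this
          exact haQ this
        rw [insert_inter_of_notMem h3] at h2
        exact ⟨⟨h1, h2⟩, h3⟩
      · rintro ⟨⟨h1, h2⟩, h3⟩
        rw [insert_inter_of_notMem h3]
        exact ⟨h1, h2⟩
    have e2 : cls 𝒮 (insert a A) (insert a Q) = (cls 𝒮 A Q).filter (fun S => a ∈ S) := by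
      ext S
      unfold cls
      rw [mem_filter, mem_filter, mem_filter]
      constructor
      · rintro ⟨h1, h2⟩
        have h3 : a ∈ S := by
          have : a ∈ insert a A ∩ S := by
            rw [h2]
            exact mem_insert_self _ _
          exact (mem_inter.1 this).2
        rw [insert_inter_of_mem h3] at h2
        refine ⟨⟨h1, ?_⟩, h3⟩
        have h4 : a ∉ A ∩ S := fun h => ha.2 (mem_inter.1 h).1
        have := congrArg (fun T => T.erase a) h2
        simpa only [erase_insert h4, erase_insert haQ] using this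
      · rintro ⟨⟨h1, h2⟩, h3⟩
        rw [insert_inter_of_mem h3, h2]
        exact ⟨h1, rfl⟩
    rw [e1, e2]
  rw [h1]
  have h2 : ∀ Q ∈ A.powerset, κ / 2 * (((cls 𝒮 A Q).card : ℝ) -
      (if 0 < (cls 𝒮 A Q).card then 1 else 0)) ≤ ∑ a ∈ X \ A,
      ((min ((cls 𝒮 A Q).filter (fun S => a ∉ S)).card
        ((cls 𝒮 A Q).filter (fun S => a ∈ S)).card : ℕ) : ℝ) := by
    intro Q _
    by_cases hQ : 0 < (cls 𝒮 A Q).card
    · rw [if_pos hQ]
      have h3 := class_split (C := cls 𝒮 A Q) (Y := X \ A) (κ := κ)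
        (fun S hS S' hS' => hκ S (mem_filter.1 hS).1 S' (mem_filter.1 hS').1) (by
          intro S hS S' hS' a ha
          rw [mem_sdiff] at ha ⊢
          unfold cls at hS hS'
          rw [mem_filter] at hS hS'
          refine ⟨h𝒮 S hS.1 ha.1, fun haA => ?_⟩
          have : a ∈ A ∩ S := mem_inter.2 ⟨haA, ha.1⟩
          rw [hS.2, ← hS'.2] at this
          exact ha.2 (mem_inter.1 this).2) (Finset.card_pos.1 hQ)
      linarith
    · rw [if_neg hQ]
      have h3 : (cls 𝒮 A Q).card = 0 := by omega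
      rw [h3]
      have h4 : (0 : ℝ) ≤ ∑ a ∈ X \ A,
          ((min ((cls 𝒮 A Q).filter (fun S => a ∉ S)).card
          ((cls 𝒮 A Q).filter (fun S => a ∈ S)).card : ℕ) : ℝ) :=
        Finset.sum_nonneg fun a _ => Nat.cast_nonneg _
      simpa using h4
  refine le_trans (le_of_eq ?_) (Finset.sum_le_sum h2)
  rw [← Finset.mul_sum, Finset.sum_sub_distrib, ← Nat.cast_sum, sum_cls]
  congr 2
  rw [Finset.card_filter]
  push_cast
  rfl

/-- Double counting. -/
lemma swap_sum (X : Finset α) (s : ℕ) (f : Finset α → α → ℝ) :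
    ∑ A ∈ X.powersetCard (s + 1), ∑ a ∈ A, f (A.erase a) a =
      ∑ A ∈ X.powersetCard s, ∑ a ∈ X \ A, f A a := by
  rw [Finset.sum_sigma', Finset.sum_sigma']
  refine Finset.sum_bij' (fun p _ => ⟨p.1.erase p.2, p.2⟩) (fun p _ => ⟨insert p.2 p.1, p.2⟩)
    ?_ ?_ ?_ ?_ ?_
  · rintro ⟨A, a⟩ h
    simp only [mem_sigma, mem_powersetCard, mem_sdiff] at h ⊢
    obtain ⟨⟨h1, h2⟩, h3⟩ := h
    refine ⟨⟨(erase_subset _ _).trans h1, ?_⟩, h1 h3, notMem_erase _ _⟩
    rw [card_erase_of_mem h3, h2, Nat.add_sub_cancel]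
  · rintro ⟨A, a⟩ h
    simp only [mem_sigma, mem_powersetCard, mem_sdiff] at h ⊢
    obtain ⟨⟨h1, h2⟩, h3, h4⟩ := h
    refine ⟨⟨insert_subset h3 h1, ?_⟩, mem_insert_self _ _⟩
    rw [card_insert_of_notMem h4, h2]
  · rintro ⟨A, a⟩ h
    simp only [mem_sigma, mem_powersetCard] at h
    simp only [insert_erase h.2]
  · rintro ⟨A, a⟩ h
    simp only [mem_sigma, mem_powersetCard, mem_sdiff] at h
    simp only [erase_insert h.2.2]
  · rintro ⟨A, a⟩ _
    rfl

/-- Haussler's packing lemma, first form. -/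
lemma pack_aux {𝒮 : Finset (Finset α)} {X : Finset α} {κ : ℝ} {d s : ℕ} (hκ0 : 0 < κ)
    (h𝒮 : ∀ S ∈ 𝒮, S ⊆ X)
    (hκ : ∀ S ∈ 𝒮, ∀ S' ∈ 𝒮, S ≠ S' → κ ≤ ((S \ S').card : ℝ) + ((S' \ S).card : ℝ))
    (hd : ∀ s, 𝒮.Shatters s → s.card ≤ d) (hs : s ≤ X.card)
    (hs1 : 4 * (d : ℝ) * X.card ≤ κ * ((s : ℝ) + 1)) :
    (𝒮.card : ℝ) ≤ 2 * ∑ i ∈ range (d + 1), ((s.choose i : ℕ) : ℝ) := by
  set Φ : ℝ := ∑ i ∈ range (d + 1), ((s.choose i : ℕ) : ℝ) with hΦ
  have h1 : ∀ A ∈ X.powersetCard s, κ / 2 * ((𝒮.card : ℝ) - Φ) ≤ ∑ a ∈ X \ A, (wt 𝒮 A a : ℝ) := by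
    intro A hA
    rw [mem_powersetCard] at hA
    refine le_trans ?_ (weight_ge h𝒮 hκ)
    refine mul_le_mul_of_nonneg_left ?_ (by positivity)
    have h2 := card_traces hd A
    rw [hA.2] at h2
    have h3 : ((A.powerset.filter (fun Q => 0 < (cls 𝒮 A Q).card)).card : ℝ) ≤ Φ := by
      rw [hΦ]
      exact_mod_cast h2
    linarith
  have h2 := Finset.sum_le_sum h1
  rw [Finset.sum_const, nsmul_eq_mul, ← swap_sum, card_powersetCard] at h2
  have h3 : ∀ A ∈ X.powersetCard (s + 1), ∑ a ∈ A, (wt 𝒮 (A.erase a) a : ℝ) ≤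
      (d : ℝ) * 𝒮.card := by
    intro A _
    exact_mod_cast weight_le hd A
  have h4 := Finset.sum_le_sum h3
  rw [Finset.sum_const, nsmul_eq_mul, card_powersetCard] at h4
  have h5 : ((X.card.choose (s + 1) : ℕ) : ℝ) * ((s : ℝ) + 1) ≤
      ((X.card.choose s : ℕ) : ℝ) * X.card := by
    have h6 := Nat.choose_succ_right_eq X.card s
    have h7 : X.card.choose (s + 1) * (s + 1) ≤ X.card.choose s * X.card := by
      rw [h6]
      exact Nat.mul_le_mul_left _ (Nat.sub_le _ _)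
    exact_mod_cast h7
  have h8 : (0 : ℝ) < ((X.card.choose s : ℕ) : ℝ) := by
    exact_mod_cast Nat.choose_pos hs
  have h9 : (0 : ℝ) < (s : ℝ) + 1 := by positivity
  have h10 : ((X.card.choose s : ℕ) : ℝ) * (κ / 2 * ((𝒮.card : ℝ) - Φ)) ≤
      ((X.card.choose (s + 1) : ℕ) : ℝ) * ((d : ℝ) * 𝒮.card) := h2.trans h4
  have h11 : ((X.card.choose s : ℕ) : ℝ) * ((κ / 2 * ((𝒮.card : ℝ) - Φ)) * ((s : ℝ) + 1)) ≤
      ((X.card.choose s : ℕ) : ℝ) * ((d : ℝ) * 𝒮.card * X.card) := by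
    calc ((X.card.choose s : ℕ) : ℝ) * ((κ / 2 * ((𝒮.card : ℝ) - Φ)) * ((s : ℝ) + 1))
        = (((X.card.choose s : ℕ) : ℝ) * (κ / 2 * ((𝒮.card : ℝ) - Φ))) * ((s : ℝ) + 1) := by ring
      _ ≤ (((X.card.choose (s + 1) : ℕ) : ℝ) * ((d : ℝ) * 𝒮.card)) * ((s : ℝ) + 1) :=
          mul_le_mul_of_nonneg_right h10 h9.le
      _ = (((X.card.choose (s + 1) : ℕ) : ℝ) * ((s : ℝ) + 1)) * ((d : ℝ) * 𝒮.card) := by ring
      _ ≤ (((X.card.choose s : ℕ) : ℝ) * X.card) * ((d : ℝ) * 𝒮.card) :=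
          mul_le_mul_of_nonneg_right h5 (by positivity)
      _ = _ := by ring
  have h12 := le_of_mul_le_mul_left h11 h8
  have h13 : (d : ℝ) * 𝒮.card * X.card ≤ κ * ((s : ℝ) + 1) * 𝒮.card / 4 := by
    have := mul_le_mul_of_nonneg_right hs1 (show (0 : ℝ) ≤ 𝒮.card / 4 by positivity)
    linarith
  have h14 : (κ * ((s : ℝ) + 1)) * ((𝒮.card : ℝ) - Φ) ≤ (κ * ((s : ℝ) + 1)) * (𝒮.card / 2) := by
    linarith
  have h15 := le_of_mul_le_mul_left h14 (by positivity)
  linarith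

/-- `∑_{i ≤ d} C(s, i) ≤ (e y / d) ^ d` for `y ≥ s, d`. -/
lemma sum_choose_le {s d : ℕ} {y : ℝ} (hd : 1 ≤ d) (hsy : (s : ℝ) ≤ y) (hdy : (d : ℝ) ≤ y) :
    ∑ i ∈ range (d + 1), ((s.choose i : ℕ) : ℝ) ≤ (Real.exp 1 * y / d) ^ d := by
  have hd0 : (0 : ℝ) < d := by exact_mod_cast hd
  have hy0 : 0 < y := lt_of_lt_of_le hd0 hdy
  have h1 : ∀ i ∈ range (d + 1), ((s.choose i : ℕ) : ℝ) * ((d : ℝ) / y) ^ d ≤
      (d : ℝ) ^ i / (Nat.factorial i : ℝ) := by
    intro i hi
    rw [mem_range] at hi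
    have h2 : ((s.choose i : ℕ) : ℝ) ≤ y ^ i / (Nat.factorial i : ℝ) := by
      refine (Nat.choose_le_pow_div i s).trans ?_
      gcongr
    have h3 : ((d : ℝ) / y) ^ d ≤ ((d : ℝ) / y) ^ i :=
      pow_le_pow_of_le_one (by positivity) (by rw [div_le_one hy0]; exact hdy) (by omega)
    calc ((s.choose i : ℕ) : ℝ) * ((d : ℝ) / y) ^ d
        ≤ (y ^ i / (Nat.factorial i : ℝ)) * ((d : ℝ) / y) ^ i :=
          mul_le_mul h2 h3 (by positivity) (by positivity)
      _ = (d : ℝ) ^ i / (Nat.factorial i : ℝ) := by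
          rw [div_pow]
          field_simp
  have h4 : (∑ i ∈ range (d + 1), ((s.choose i : ℕ) : ℝ)) * ((d : ℝ) / y) ^ d ≤
      Real.exp d := by
    rw [Finset.sum_mul]
    exact (Finset.sum_le_sum h1).trans (Real.sum_le_exp_of_nonneg hd0.le _)
  have h5 : (0 : ℝ) < ((d : ℝ) / y) ^ d := by positivity
  have h6 : (Real.exp 1 * y / d) ^ d * ((d : ℝ) / y) ^ d = Real.exp d := by
    rw [← mul_pow]
    have : Real.exp 1 * y / d * ((d : ℝ) / y) = Real.exp 1 := by
      field_simp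
    rw [this, ← Real.exp_nat_mul, mul_one]
  refine le_of_mul_le_mul_right ?_ h5
  rw [h6]
  exact h4

/-- Haussler's packing lemma. -/
theorem pack {𝒮 : Finset (Finset α)} {X : Finset α} {κ : ℝ} {d : ℕ} (hκ0 : 0 < κ)
    (hκX : κ ≤ X.card) (h𝒮 : ∀ S ∈ 𝒮, S ⊆ X)
    (hκ : ∀ S ∈ 𝒮, ∀ S' ∈ 𝒮, S ≠ S' → κ ≤ ((S \ S').card : ℝ) + ((S' \ S).card : ℝ))
    (hd : ∀ s, 𝒮.Shatters s → s.card ≤ d) :
    (𝒮.card : ℝ) ≤ (22 * X.card / κ) ^ d := by
  have htr : ∀ A : Finset α, A = X → (𝒮.card : ℝ) ≤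
      ∑ i ∈ range (d + 1), ((A.card.choose i : ℕ) : ℝ) := by
    rintro A rfl
    have h1 := card_traces hd A
    have h2 : 𝒮.card ≤ (A.powerset.filter (fun Q => 0 < (cls 𝒮 A Q).card)).card := by
      refine Finset.card_le_card ?_
      intro S hS
      rw [mem_filter, mem_powerset]
      refine ⟨h𝒮 S hS, Finset.card_pos.2 ⟨S, ?_⟩⟩
      unfold cls
      rw [mem_filter]
      exact ⟨hS, inter_eq_right.2 (h𝒮 S hS)⟩
    exact_mod_cast h2.trans h1
  rcases Nat.eq_zero_or_pos d with rfl | hd1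
  · have := htr X rfl
    simpa using this
  set y : ℝ := 4 * (d : ℝ) * X.card / κ with hy
  have hd0 : (0 : ℝ) < d := by exact_mod_cast hd1
  have hX0 : (0 : ℝ) < X.card := lt_of_lt_of_le hκ0 hκX
  have hyd : (d : ℝ) ≤ y := by
    rw [hy, le_div_iff₀ hκ0]
    nlinarith
  have hy0 : 0 < y := lt_of_lt_of_le hd0 hyd
  have he : Real.exp 1 * y / d = 4 * Real.exp 1 * X.card / κ := by
    rw [hy]
    field_simp
  have hexp : Real.exp 1 ≤ 11 / 4 := by
    have := Real.exp_one_lt_d9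
    linarith
  have h1 : (1 : ℝ) ≤ X.card / κ := by
    rw [le_div_iff₀ hκ0]
    linarith
  have hbound : (𝒮.card : ℝ) ≤ 2 * (Real.exp 1 * y / d) ^ d := by
    by_cases hs : ⌊y⌋₊ ≤ X.card
    · refine (pack_aux (s := ⌊y⌋₊) hκ0 h𝒮 hκ hd hs ?_).trans ?_
      · have h2 := Nat.lt_floor_add_one y
        rw [hy, div_lt_iff₀ hκ0] at h2
        rw [hy]
        linarith
      · exact mul_le_mul_of_nonneg_left (sum_choose_le hd1 (Nat.floor_le hy0.le) hyd) (by norm_num)
    · push Not at hs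
      have h2 : (X.card : ℝ) ≤ y := by
        have h3 : ((X.card : ℕ) : ℝ) ≤ ((⌊y⌋₊ : ℕ) : ℝ) := by exact_mod_cast hs.le
        exact h3.trans (Nat.floor_le hy0.le)
      refine (htr X rfl).trans ?_
      refine (sum_choose_le hd1 h2 hyd).trans ?_
      have : 0 ≤ (Real.exp 1 * y / d) ^ d := by positivity
      linarith
  refine hbound.trans ?_
  rw [he]
  have h3 : 4 * Real.exp 1 * X.card / κ ≤ 11 * (X.card / κ) := by
    rw [mul_div_assoc]
    exact mul_le_mul_of_nonneg_right (by linarith) (by positivity)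
  have h4 : 22 * X.card / κ = 2 * (11 * (X.card / κ)) := by ring
  rw [h4, mul_pow]
  have h5 : (2 : ℝ) ≤ 2 ^ d := by
    calc (2 : ℝ) = 2 ^ 1 := by norm_num
      _ ≤ 2 ^ d := pow_le_pow_right₀ (by norm_num) hd1
  refine mul_le_mul h5 (pow_le_pow_left₀ (by positivity) h3 d) (by positivity) (by positivity)

end Pool.Agent.Lib.MP_cd78fc_co.VC
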